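import Pool.Agent.Helper5.RO.Goals

/-!
# Project RO, packet LOC: the local estimate for the polynomials of the translates
-/

set_option autoImplicit false
set_option linter.unusedSectionVars false

namespace Pool.Agent.Helper32.RO

open WeierstrassCurve Height Height.AdmissibleAbsValues MvPolynomial
open Pool.Agent.Helper29.BL Pool.Agent.Helper29.GC Pool.Agent.Helper5.RO

/-- half of the subsets contain a given element -/
theorem card_mem {n : ℕ} (i : Fin n) :
    (Finset.univ.filter fun A : Finset (Fin n) => i ∈ A).card = 2 ^ (n - 1) ∧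
      (Finset.univ.filter fun A : Finset (Fin n) => i ∉ A).card = 2 ^ (n - 1) := by
  classical
  have h1 : (Finset.univ.filter fun A : Finset (Fin n) => i ∈ A).card =
      (Finset.univ.filter fun A : Finset (Fin n) => i ∉ A).card := by
    refine Finset.card_bij (fun A _ => Aᶜ) ?_ ?_ ?_
    · intro A hA
      simp only [Finset.mem_filter, Finset.mem_univ, true_and] at hA ⊢
      simpa using hA
    · intro A _ B _ h
      exact compl_injective h
    · intro B hB
      refine ⟨Bᶜ, ?_, compl_compl B⟩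
      simp only [Finset.mem_filter, Finset.mem_univ, true_and] at hB ⊢
      simpa using hB
  have h2 : (Finset.univ.filter fun A : Finset (Fin n) => i ∈ A).card +
      (Finset.univ.filter fun A : Finset (Fin n) => i ∉ A).card = 2 ^ n := by
    rw [Finset.card_filter_add_card_filter_not]
    simp
  have hn : 0 < n := i.pos
  have h3 : 2 ^ n = 2 * 2 ^ (n - 1) := by
    rw [← pow_succ']
    congr 1
    omega
  omega

theorem prod_ite {n : ℕ} (i : Fin n) (a b : ℝ) :
    ∏ A : Finset (Fin n), (if i ∈ A then a else b) = (a * b) ^ 2 ^ (n - 1) := by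
  classical
  rw [Finset.prod_ite, Finset.prod_const, Finset.prod_const, (card_mem i).1, (card_mem i).2,
    mul_pow]

theorem max_xRep {K : Type} [Field K] (v : AbsoluteValue K ℝ) {W : Affine K} (P : W.Point) :
    max (v (P.xRep 0)) (v (P.xRep 1)) = Mv v (xc P) := by
  cases P
  · change max (v (1 : K)) (v (0 : K)) = max 1 (v (0 : K))
    rw [map_one, map_zero]
  · rename_i x y h
    change max (v x) (v (1 : K)) = max 1 (v x)
    rw [map_one, max_comm]

theorem xRep_aff {K : Type} [Field K] {W : Affine K} {P : W.Point} (hP : P ≠ 0) :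
    P.xRep = ![xc P, 1] := by
  cases P
  · exact absurd rfl hP
  · rfl

theorem max_smul {K : Type} [Field K] (v : AbsoluteValue K ℝ) (κ : K) (y : Fin 2 → K) :
    max (v ((κ • y) 0)) (v ((κ • y) 1)) = v κ * max (v (y 0)) (v (y 1)) := by
  rw [Pi.smul_apply, Pi.smul_apply, smul_eq_mul, smul_eq_mul, map_mul, map_mul,
    mul_max_of_nonneg _ _ (v.nonneg κ)]

theorem main_ineq {n D : ℕ} {F : Finset (Fin n) → ℝ} {a b EL G : Fin n → ℝ} {E4 M φ : ℝ}
    (hF : ∀ A, 0 ≤ F A) (ha : ∀ i, 0 ≤ a i) (hb : ∀ i, 0 ≤ b i) (hG : ∀ i, 0 ≤ G i)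
    (hEL : ∀ i, 0 ≤ EL i) (hE4 : 1 ≤ E4) (hφ : 0 ≤ φ)
    (h1 : ∀ A, F A ≤ E4 * (∏ i, if i ∈ A then a i else b i) ^ D)
    (h2 : F Finset.univ * M = (∏ i, a i) ^ D * φ)
    (h3 : ∀ i, a i * b i ≤ EL i * G i ^ 2) :
    (∏ A, F A) * M ≤ E4 ^ 2 ^ n * (∏ i, EL i ^ (2 ^ (n - 1) * D)) * (∏ i, G i) ^ (2 ^ n * D) * φ := by
  classical
  set P : Finset (Fin n) → ℝ := fun A => ∏ i, if i ∈ A then a i else b i with hP
  have hP0 : ∀ A, 0 ≤ P A := by
    intro A
    refine Finset.prod_nonneg fun i _ => ?_
    split_ifs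
    · exact ha i
    · exact hb i
  have hPu : P Finset.univ = ∏ i, a i := by
    rw [hP]
    refine Finset.prod_congr rfl fun i _ => ?_
    rw [if_pos (Finset.mem_univ i)]
  have hstep1 : (∏ A, F A) * M ≤ (∏ A, (E4 * P A ^ D)) * φ := by
    rw [← Finset.mul_prod_erase Finset.univ F (Finset.mem_univ Finset.univ),
      ← Finset.mul_prod_erase Finset.univ (fun A => E4 * P A ^ D) (Finset.mem_univ Finset.univ)]
    have h4 : ∏ A ∈ Finset.univ.erase Finset.univ, F A ≤
        ∏ A ∈ Finset.univ.erase Finset.univ, (E4 * P A ^ D) :=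
      Finset.prod_le_prod (fun A _ => hF A) fun A _ => h1 A
    have h5 : F Finset.univ * M ≤ E4 * P Finset.univ ^ D * φ := by
      rw [h2, hPu]
      have h6 : 0 ≤ (∏ i, a i) ^ D * φ :=
        mul_nonneg (pow_nonneg (Finset.prod_nonneg fun i _ => ha i) _) hφ
      nlinarith
    have h7 : 0 ≤ F Finset.univ * M := by
      rw [h2]
      exact mul_nonneg (pow_nonneg (Finset.prod_nonneg fun i _ => ha i) _) hφ
    calc F Finset.univ * (∏ A ∈ Finset.univ.erase Finset.univ, F A) * M
        = (∏ A ∈ Finset.univ.erase Finset.univ, F A) * (F Finset.univ * M) := by ring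
      _ ≤ (∏ A ∈ Finset.univ.erase Finset.univ, (E4 * P A ^ D)) *
          (E4 * P Finset.univ ^ D * φ) := by
          refine mul_le_mul h4 h5 h7 (Finset.prod_nonneg fun A _ => ?_)
          exact mul_nonneg (by linarith) (pow_nonneg (hP0 A) _)
      _ = E4 * P Finset.univ ^ D * (∏ A ∈ Finset.univ.erase Finset.univ, (E4 * P A ^ D)) * φ := by
          ring
  have hstep2 : ∏ A, (E4 * P A ^ D) = E4 ^ 2 ^ n * (∏ A, P A) ^ D := by
    rw [Finset.prod_mul_distrib, Finset.prod_const, Finset.prod_pow]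
    simp
  have hstep3 : ∏ A, P A = ∏ i, (a i * b i) ^ 2 ^ (n - 1) := by
    rw [hP, Finset.prod_comm]
    exact Finset.prod_congr rfl fun i _ => prod_ite i (a i) (b i)
  have hstep4 : (∏ A, P A) ^ D ≤
      (∏ i, EL i ^ (2 ^ (n - 1) * D)) * (∏ i, G i) ^ (2 ^ n * D) := by
    rw [hstep3, ← Finset.prod_pow, ← Finset.prod_pow, ← Finset.prod_mul_distrib]
    refine Finset.prod_le_prod (fun i _ => ?_) fun i _ => ?_
    · exact pow_nonneg (pow_nonneg (mul_nonneg (ha i) (hb i)) _) _
    · have hn : 0 < n := i.pos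
      have h8 : 2 ^ n * D = 2 * (2 ^ (n - 1) * D) := by
        rw [← mul_assoc, ← pow_succ']
        congr 2
        omega
      rw [h8, pow_mul (G i) 2, ← mul_pow, ← pow_mul]
      exact pow_le_pow_left₀ (mul_nonneg (ha i) (hb i)) (h3 i) _
  refine hstep1.trans ?_
  rw [hstep2]
  have h9 : 0 ≤ E4 ^ 2 ^ n := pow_nonneg (by linarith) _
  calc E4 ^ 2 ^ n * (∏ A, P A) ^ D * φ
      ≤ E4 ^ 2 ^ n * ((∏ i, EL i ^ (2 ^ (n - 1) * D)) * (∏ i, G i) ^ (2 ^ n * D)) * φ := by
        gcongr
    _ = _ := by ring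

theorem gLOC (h1 : G_HVAL) (h2 : G_HEV) (h3 : G_LK) : G_LOC := by
  classical
  intro K _ _ _ W _ n D c A B hAB f N hf hN
  obtain ⟨c4, hc4, hc40, hc4b⟩ := h2.2.2.2 K n D f hf
  have hL := fun i => h3 K W (c i) (A i) (B i) (hAB i)
  choose cL hcL hcL0 hcLb using hL
  refine ⟨fun v => 2 ^ n * c4 v + ∑ i, 2 ^ (n - 1) * D * cL i v, ?_, ?_, ?_⟩
  · exact (hc4.const_mul _).add (FS.sum _ fun i _ => (hcL i).const_mul _)
  · intro v
    have := hc40 v
    have h5 : ∀ i, 0 ≤ (2 : ℝ) ^ (n - 1) * D * cL i v := fun i => by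
      have := hcL0 i v
      positivity
    have h6 := Finset.sum_nonneg fun i (_ : i ∈ Finset.univ) => h5 i
    positivity
  · intro v w b hw hb hz
    obtain ⟨κ, hκ0, hκ, hval⟩ := h1 K W n D c A B hAB f N hN K (RingHom.id K) W
      W.map_id.symm w b hw hb
    have hval' : v (Polynomial.eval (xc w) ((HP W A B N).map (eval (fun i => xc (b i))))) =
        ∏ A' : Finset (Fin n), v (hev (RingHom.id K) D f (fun i =>
          if i ∈ A' then κ i • (c i • w + b i).xRep else (c i • w - b i).xRep)) := by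
      rw [← map_prod, ← hval]
      rfl
    rw [hval']
    have hmain := main_ineq (n := n) (D := D)
      (F := fun A' => v (hev (RingHom.id K) D f (fun i =>
          if i ∈ A' then κ i • (c i • w + b i).xRep else (c i • w - b i).xRep)))
      (a := fun i => v (κ i) * Mv v (xc (c i • w + b i)))
      (b := fun i => Mv v (xc (c i • w - b i)))
      (EL := fun i => Real.exp (cL i v))
      (G := fun i => Mv v (xc w) ^ (c i ^ 2) * Mv v (xc (b i)))
      (E4 := Real.exp (c4 v)) (M := Mx v (fun i => xc (c i • w + b i)) ^ D)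
      (φ := v (eval (fun i => xc (c i • w + b i)) f))
      (fun _ => v.nonneg _) (fun i => mul_nonneg (v.nonneg _) (Mv_pos v _).le)
      (fun i => (Mv_pos v _).le)
      (fun i => mul_nonneg (pow_nonneg (Mv_pos v _).le _) (Mv_pos v _).le)
      (fun i => (Real.exp_pos _).le) (Real.one_le_exp (hc40 v)) (v.nonneg _) ?_ ?_ ?_
    · refine hmain.trans (le_of_eq ?_)
      have e1 : Real.exp (2 ^ n * c4 v + ∑ i, 2 ^ (n - 1) * D * cL i v) =
          Real.exp (c4 v) ^ 2 ^ n * ∏ i, Real.exp (cL i v) ^ (2 ^ (n - 1) * D) := by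
        rw [Real.exp_add, Real.exp_sum, ← Real.exp_nat_mul]
        congr 1
        · push_cast; rfl
        · refine Finset.prod_congr rfl fun i _ => ?_
          rw [← Real.exp_nat_mul]
          push_cast
          rfl
      have e2 : (∏ i, (Mv v (xc w) ^ (c i ^ 2) * Mv v (xc (b i)))) ^ (2 ^ n * D) =
          Mv v (xc w) ^ aa n D c * Mx v (fun i => xc (b i)) ^ (2 ^ n * D) := by
        rw [Finset.prod_mul_distrib, mul_pow, Finset.prod_pow_eq_pow_sum, ← pow_mul, aa, Mx]
        congr 2
        ring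
      rw [e1, e2]
    · intro A'
      refine (hc4b v _).trans (le_of_eq ?_)
      congr 2
      refine Finset.prod_congr rfl fun i _ => ?_
      split_ifs
      · rw [max_smul, max_xRep]
      · rw [max_xRep]
    · have e3 : hev (RingHom.id K) D f (fun i =>
          if i ∈ (Finset.univ : Finset (Fin n)) then κ i • (c i • w + b i).xRep
            else (c i • w - b i).xRep) =
          (∏ i, κ i) ^ D * eval (fun i => xc (c i • w + b i)) f := by
        have e4 : (fun i => if i ∈ (Finset.univ : Finset (Fin n)) then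
            κ i • (c i • w + b i).xRep else (c i • w - b i).xRep) =
            fun i => κ i • ![xc (c i • w + b i), 1] := by
          funext i
          rw [if_pos (Finset.mem_univ i), xRep_aff (hz i)]
        rw [e4, h2.2.1 K K (RingHom.id K) n D f κ _ hf, h2.2.2.1 K K (RingHom.id K) n D f]
        rfl
      change v (hev (RingHom.id K) D f (fun i =>
          if i ∈ (Finset.univ : Finset (Fin n)) then κ i • (c i • w + b i).xRep
            else (c i • w - b i).xRep)) * _ = _
      rw [e3, map_mul, map_pow, map_prod, Finset.prod_mul_distrib, mul_pow, Mx]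
      ring
    · intro i
      have h5 := hcLb i v w (b i) (κ i) hw (hb i) (hκ i)
      calc v (κ i) * Mv v (xc (c i • w + b i)) * Mv v (xc (c i • w - b i))
          = v (κ i) * (Mv v (xc (c i • w + b i)) * Mv v (xc (c i • w - b i))) := by ring
        _ ≤ _ := h5

end Pool.Agent.Helper32.RO
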